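import Pool.Agent.TH308.RD.M10

/-!
# The sharp bound for the positive harmonic function of a relatively dense set

`Pool.Agent.TH308.RD.Adm E U` says that `U` is the function `U_E` of the problem: `E ⊆ ℝ` is closed,
`U` is continuous on the plane, zero on `E`, positive and harmonic off `E`, symmetric about the real
axis, and `U (i y) / y → 1`. `Pool.Agent.TH308.RD.RelDense N δ E` says that every interval of length
`N` meets `E` in a set of measure at least `δ`.

The proof: a star function along all windows of length one is compared with the one of a periodic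
set of slightly smaller density; the largest value is never attained inside.
-/

set_option autoImplicit false

namespace Pool.Agent.Results.MP_cebbdc_an.LevinExtremal

open Pool.Agent.TH308.RD

/-- all values `U_E(x)`, `x` real, `E` in the family `E(N, δ)`; `C(N, δ)` is its supremum -/
def values (N δ : ℝ) : Set ℝ :=
  {v | ∃ (E : Set ℝ) (U : ℂ → ℝ) (x : ℝ), Adm E U ∧ RelDense N δ E ∧ v = U x}

/-- the periodic set: the union of the intervals `[n N - δ/2, n N + δ/2]` -/
def periodicSet (N δ : ℝ) : Set ℝ := {x | ∃ n : ℤ, |x - n * N| ≤ δ / 2}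

/-- `C(N, δ) = (N/π) log cot (π δ / (4 N))`; this value is attained for the periodic set, and only
for its translates. -/
theorem result {N δ : ℝ} (hδ : 0 < δ) (hN : δ < N) :
    IsGreatest (values N δ) (N / Real.pi * Real.log (Real.cot (Real.pi * δ / (4 * N)))) ∧
    RelDense N δ (periodicSet N δ) ∧
    (∃ U : ℂ → ℝ, Adm (periodicSet N δ) U ∧
      U ((N / 2 : ℝ) : ℂ) = N / Real.pi * Real.log (Real.cot (Real.pi * δ / (4 * N)))) ∧
    ∀ (E : Set ℝ) (U : ℂ → ℝ) (x₀ : ℝ), Adm E U → RelDense N δ E →
      U (x₀ : ℂ) = N / Real.pi * Real.log (Real.cot (Real.pi * δ / (4 * N))) →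
      E = {x | x - (x₀ + N / 2) ∈ periodicSet N δ} := by
  obtain ⟨h1, U, h2, h3⟩ := extremal_adm hδ hN
  refine ⟨⟨⟨periodicSet N δ, U, N / 2, h2, h1, h3.symm⟩, ?_⟩, h1, ⟨U, h2, h3⟩, ?_⟩
  · rintro v ⟨E, U, x, hU, hE, rfl⟩
    exact upper hU hδ hN hE x
  · intro E U x₀ hU hE heq
    exact extremal_unique hU hδ hN hE heq

end Pool.Agent.Results.MP_cebbdc_an.LevinExtremal
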